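import Pool.Agent.H84.QQ.Stm2

/-!
Project QQ, module QGF: the conclusion from the count QCNT. (Adapted from `Pool.Agent.H84.FM.GF`.)
-/

set_option autoImplicit false

namespace Pool.Agent.H85.QQ

open NumberField Pool.Agent.K4H56.JD Pool.Agent.K4H56.IF Pool.Agent.Y673.FM Pool.Agent.K4H56.HG
open Pool.Agent.H84.QQ

theorem gen_calc {X : ℝ} (hX : 1 ≤ X) {E C₁ κ η δ θ : ℝ} (a b : ℕ) (hE : 0 < E)
    (hEle : E ≤ C₁ * X ^ (κ * η)) (hexp : κ * η * a + δ * b + θ ≤ 2 - δ) :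
    E ^ a * ((X ^ δ) ^ b * X ^ θ) ≤ C₁ ^ a * X ^ (2 - δ) := by
  have hX0 : 0 < X := by linarith
  have hC₁ : 0 ≤ C₁ := by
    by_contra h
    push Not at h
    have : C₁ * X ^ (κ * η) < 0 := mul_neg_of_neg_of_pos h (Real.rpow_pos_of_pos hX0 _)
    linarith
  have s3 : E ^ a ≤ C₁ ^ a * X ^ (κ * η * a) := by
    have h1 : (C₁ * X ^ (κ * η)) ^ a = C₁ ^ a * X ^ (κ * η * a) := by
      rw [mul_pow, ← Real.rpow_natCast (X ^ (κ * η)) a, ← Real.rpow_mul hX0.le]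
    rw [← h1]
    exact pow_le_pow_left₀ hE.le hEle a
  have s4 : (X ^ δ) ^ b = X ^ (δ * b) := by
    rw [← Real.rpow_natCast (X ^ δ) b, ← Real.rpow_mul hX0.le]
  have s5 : X ^ (κ * η * a) * (X ^ (δ * b) * X ^ θ) ≤ X ^ (2 - δ) := by
    rw [← Real.rpow_add hX0, ← Real.rpow_add hX0]
    refine Real.rpow_le_rpow_of_exponent_le hX ?_
    linarith
  rw [s4]
  have h0 : 0 ≤ X ^ (δ * b) * X ^ θ :=
    mul_nonneg (Real.rpow_nonneg hX0.le _) (Real.rpow_nonneg hX0.le _)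
  calc E ^ a * (X ^ (δ * b) * X ^ θ)
      ≤ (C₁ ^ a * X ^ (κ * η * a)) * (X ^ (δ * b) * X ^ θ) := mul_le_mul_of_nonneg_right s3 h0
    _ = C₁ ^ a * (X ^ (κ * η * a) * (X ^ (δ * b) * X ^ θ)) := by ring
    _ ≤ C₁ ^ a * X ^ (2 - δ) := mul_le_mul_of_nonneg_left s5 (pow_nonneg hC₁ a)

theorem calc1 {X : ℝ} (hX : 1 ≤ X) {G E C₁ κ η δ θ Λ n V W K : ℝ} (hE : 0 < E) (hG : 0 ≤ G) (hK : 0 ≤ K)
    (hΛ0 : 0 ≤ Λ) (hn0 : 0 ≤ n) (hV0 : 0 ≤ V) (hΛ : Λ ≤ G * E) (hn : n ≤ E)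
    (hV : X * V ≤ W * X ^ θ) (hW : 0 ≤ W) (hEle : E ≤ C₁ * X ^ (κ * η))
    (hexp : κ * η * 26 + δ * 48 + θ ≤ 2 - δ) :
    (Λ * n ^ 9) * (K * E ^ 12 * (3458 * (X ^ δ) ^ 12 * Λ) ^ 4 * (X * V)) ≤
      (K * G ^ 5 * 3458 ^ 4 * W) * C₁ ^ 26 * X ^ (2 - δ) := by
  have hX0 : 0 < X := by linarith
  have hT : 0 < X ^ δ := Real.rpow_pos_of_pos hX0 _
  have hXθ : 0 < X ^ θ := Real.rpow_pos_of_pos hX0 _
  have h1 : (Λ * n ^ 9) * (K * E ^ 12 * (3458 * (X ^ δ) ^ 12 * Λ) ^ 4 * (X * V)) ≤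
      ((G * E) * E ^ 9) * (K * E ^ 12 * (3458 * (X ^ δ) ^ 12 * (G * E)) ^ 4 * (W * X ^ θ)) := by
    gcongr
  have h2 : ((G * E) * E ^ 9) * (K * E ^ 12 * (3458 * (X ^ δ) ^ 12 * (G * E)) ^ 4 * (W * X ^ θ)) =
      (K * G ^ 5 * 3458 ^ 4 * W) * (E ^ 26 * ((X ^ δ) ^ 48 * X ^ θ)) := by ring
  rw [h2] at h1
  have h3 := gen_calc hX (κ := κ) (η := η) (δ := δ) (θ := θ) 26 48 hE hEle (by push_cast; linarith)
  calc _ ≤ _ := h1
    _ ≤ (K * G ^ 5 * 3458 ^ 4 * W) * (C₁ ^ 26 * X ^ (2 - δ)) :=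
        mul_le_mul_of_nonneg_left h3 (by positivity)
    _ = _ := by ring

theorem calc2 {X : ℝ} (hX : 1 ≤ X) {G E C₁ κ η δ θ Λ n V W : ℝ} (hE : 0 < E) (hG : 0 ≤ G)
    (hΛ0 : 0 ≤ Λ) (hn0 : 0 ≤ n) (hV0 : 0 ≤ V) (hΛ : Λ ≤ G * E) (hn : n ≤ E)
    (hV : X * V ≤ W * X ^ θ) (hW : 0 ≤ W) (hEle : E ≤ C₁ * X ^ (κ * η))
    (hexp : κ * η * 18 + δ * 72 + θ ≤ 2 - δ) :
    (Λ * n ^ 5) * (8 * E ^ 6 * (3458 * (X ^ δ) ^ 12 * Λ) ^ 6 * (X * V)) ≤
      (8 * G ^ 7 * 3458 ^ 6 * W) * C₁ ^ 18 * X ^ (2 - δ) := by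
  have hX0 : 0 < X := by linarith
  have hT : 0 < X ^ δ := Real.rpow_pos_of_pos hX0 _
  have hXθ : 0 < X ^ θ := Real.rpow_pos_of_pos hX0 _
  have h1 : (Λ * n ^ 5) * (8 * E ^ 6 * (3458 * (X ^ δ) ^ 12 * Λ) ^ 6 * (X * V)) ≤
      ((G * E) * E ^ 5) * (8 * E ^ 6 * (3458 * (X ^ δ) ^ 12 * (G * E)) ^ 6 * (W * X ^ θ)) := by
    gcongr
  have h2 : ((G * E) * E ^ 5) * (8 * E ^ 6 * (3458 * (X ^ δ) ^ 12 * (G * E)) ^ 6 * (W * X ^ θ)) =
      (8 * G ^ 7 * 3458 ^ 6 * W) * (E ^ 18 * ((X ^ δ) ^ 72 * X ^ θ)) := by ring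
  rw [h2] at h1
  have h3 := gen_calc hX (κ := κ) (η := η) (δ := δ) (θ := θ) 18 72 hE hEle (by push_cast; linarith)
  calc _ ≤ _ := h1
    _ ≤ (8 * G ^ 7 * 3458 ^ 6 * W) * (C₁ ^ 18 * X ^ (2 - δ)) :=
        mul_le_mul_of_nonneg_left h3 (by positivity)
    _ = _ := by ring

/-- the logarithm of the second bound -/
theorem log_nat {X : ℕ} (hX : 1 ≤ X) {κ : ℝ} (hκ : κ ≤ 22 / 7) {Y : ℕ} (hY : 1 ≤ Y)
    (hYr : (Y : ℝ) ≤ (X : ℝ) ^ κ) : (Nat.log 2 Y : ℝ) ≤ 8 * Real.log X := by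
  have hX1 : (1 : ℝ) ≤ X := by exact_mod_cast hX
  have hlogX : 0 ≤ Real.log X := Real.log_nonneg hX1
  have h1 : ((2 : ℝ)) ^ (Nat.log 2 Y) ≤ Y := by
    exact_mod_cast Nat.pow_log_le_self 2 (by omega : Y ≠ 0)
  have h2 : (Nat.log 2 Y : ℝ) * Real.log 2 ≤ κ * Real.log X := by
    have h3 := Real.log_le_log (by positivity) (h1.trans hYr)
    rwa [Real.log_pow, Real.log_rpow (by linarith)] at h3
  have h4 := Real.log_two_gt_d9
  have h5 : (0 : ℝ) ≤ Nat.log 2 Y := Nat.cast_nonneg _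
  have h6 : (Nat.log 2 Y : ℝ) * (1 / 2) ≤ (Nat.log 2 Y : ℝ) * Real.log 2 :=
    mul_le_mul_of_nonneg_left (by linarith) h5
  have h7 : κ * Real.log X ≤ 4 * Real.log X := mul_le_mul_of_nonneg_right (by linarith) hlogX
  linarith

set_option maxHeartbeats 4000000 in
theorem qgf (hQ : S_QCNT) : S_QGF := by
  classical
  obtain ⟨Kq, hKq, hQC⟩ := hQ
  intro D k hk κ hκ2 hκ'
  have hκ : 1 ≤ κ := by linarith
  have hk0 : (0 : ℝ) < k := by exact_mod_cast (by omega : 0 < k)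
  have hk13 : (13 : ℝ) ≤ k := by exact_mod_cast hk
  set θ : ℝ := 1 + (κ - 1) * (7 / 15) with hθ
  have hθ2 : θ < 2 := by linarith
  set μ : ℝ := min (2 - θ) (11 / 26) with hμ
  have hμ0 : 0 < μ := lt_min (by linarith) (by norm_num)
  have hμ1 : μ ≤ 2 - θ := min_le_left _ _
  have hμ2 : μ ≤ 11 / 26 := min_le_right _ _
  set δ : ℝ := μ / 1000 with hδ
  have hδ0 : 0 < δ := by rw [hδ]; linarith
  have hδ1 : δ ≤ 1 / 300 := by rw [hδ]; linarith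
  set η : ℝ := μ / (200 * κ) with hη
  have hκ0 : 0 < κ := by linarith
  have hη0 : 0 < η := by
    rw [hη]
    exact div_pos (by linarith) (by linarith)
  have hκη : κ * η = μ / 200 := by
    rw [hη]
    field_simp
  obtain ⟨C₀, hC₀, hun⟩ := exists_un (η := η) hη0
  obtain ⟨X₀, hX₀⟩ := log_ev D (s := 1 - 12 * δ) (by linarith)
  set C₁ : ℝ := C₀ * (4000000 * ((D : ℝ) + 1)) ^ η with hC₁
  have hD0 : (0 : ℝ) ≤ D := Nat.cast_nonneg _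
  have hC₁1 : 0 < C₁ := by positivity
  set G : ℝ := 144 * D + 2 with hG
  have hG1 : 1 ≤ G := by rw [hG]; linarith
  set C₂ : ℝ := (Kq * G ^ 5 * 3458 ^ 4 * 1) * C₁ ^ 26 + (8 * G ^ 7 * 3458 ^ 6 * 1728) * C₁ ^ 18 with hC₂
  have hC₂0 : 0 < C₂ := by positivity
  refine ⟨δ, hδ0, 14000 + C₂ + 3 * ((X₀ : ℝ) + 1) ^ δ, fun X hX => ?_⟩
  have hX1 : (1 : ℝ) ≤ X := by exact_mod_cast hX
  have hX0' : (0 : ℝ) < X := by linarith
  have hXδ : (0 : ℝ) < (X : ℝ) ^ (2 - δ) := Real.rpow_pos_of_pos hX0' _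
  have hXsplit : (X : ℝ) ^ 2 = (X : ℝ) ^ δ * (X : ℝ) ^ (2 - δ) := by
    rw [← Real.rpow_add hX0', ← Real.rpow_natCast]
    congr 1
    push_cast
    ring
  by_cases hsm : X < X₀
  · -- small heights
    have h1 : ({j : ℚ | Ht j ≤ X ∧ ¬ FM D k ((X : ℝ) ^ κ) j}.ncard : ℝ) ≤
        ({j : ℚ | Ht j ≤ X}.ncard : ℝ) :=
      Nat.cast_le.2 (Set.ncard_le_ncard (fun j hj => hj.1) (Ht_finite X))
    have h2 : (X : ℝ) ^ δ ≤ ((X₀ : ℝ) + 1) ^ δ :=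
      Real.rpow_le_rpow hX0'.le (by exact_mod_cast (by omega : X ≤ X₀ + 1)) hδ0.le
    calc _ ≤ 3 * (X : ℝ) ^ 2 := h1.trans (card_all hX)
      _ = 3 * (X : ℝ) ^ δ * (X : ℝ) ^ (2 - δ) := by rw [hXsplit]; ring
      _ ≤ 3 * ((X₀ : ℝ) + 1) ^ δ * (X : ℝ) ^ (2 - δ) :=
          mul_le_mul_of_nonneg_right (by linarith) hXδ.le
      _ ≤ (14000 + C₂ + 3 * ((X₀ : ℝ) + 1) ^ δ) * (X : ℝ) ^ (2 - δ) :=
          mul_le_mul_of_nonneg_right (by linarith) hXδ.le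
  push Not at hsm
  have hlog := hX₀ X hsm
  set T : ℝ := (X : ℝ) ^ δ with hT
  have hT1 : 1 ≤ T := Real.one_le_rpow hX1 hδ0.le
  have hT0 : 0 < T := by linarith
  have hT12 : T ^ 12 = (X : ℝ) ^ (12 * δ) := by
    rw [hT, ← Real.rpow_natCast, ← Real.rpow_mul hX0'.le]
    congr 1
    push_cast
    ring
  -- a generic invariant has a large product
  have hgen : ∀ j : ℚ, (X : ℝ) ^ 3 < T ^ 12 * Nj j →
      3456000 * ((D : ℝ) + 8 + Real.log X) * (X : ℝ) ^ 2 < Nj j := by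
    intro j hj
    have h1 : (X : ℝ) ^ 3 = (X : ℝ) ^ (12 * δ) * ((X : ℝ) ^ (1 - 12 * δ) * (X : ℝ) ^ 2) := by
      rw [← Real.rpow_natCast (X : ℝ) 2, ← Real.rpow_add hX0', ← Real.rpow_add hX0',
        ← Real.rpow_natCast]
      congr 1
      push_cast
      ring
    rw [h1, hT12] at hj
    have h2 := lt_of_mul_lt_mul_left hj (Real.rpow_nonneg hX0'.le _)
    exact (mul_le_mul_of_nonneg_right hlog (by positivity)).trans_lt h2
  have hlogX : 0 ≤ Real.log X := Real.log_nonneg hX1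
  have hbig : ∀ j : ℚ, (X : ℝ) ^ 3 < T ^ 12 * Nj j → (1 : ℝ) < Nj j := by
    intro j hj
    refine lt_of_le_of_lt ?_ (hgen j hj)
    nlinarith [mul_nonneg (add_nonneg hD0 hlogX) (sq_nonneg (X : ℝ))]
  set Y : ℕ := ⌊(X : ℝ) ^ κ⌋₊ with hY
  have hXκ : (X : ℝ) ≤ (X : ℝ) ^ κ := by
    conv_lhs => rw [← Real.rpow_one (X : ℝ)]
    exact Real.rpow_le_rpow_of_exponent_le hX1 hκ
  have hXY : X ≤ Y := Nat.le_floor hXκ
  have hX2Y : X ^ 2 ≤ Y := by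
    apply Nat.le_floor
    push_cast
    rw [← Real.rpow_natCast]
    exact Real.rpow_le_rpow_of_exponent_le hX1 (by push_cast; exact hκ2)
  have hYr : (Y : ℝ) ≤ (X : ℝ) ^ κ := Nat.floor_le (by positivity)
  -- the generic pairs
  have hPF := PS_finite D k X Y
  set F := hPF.toFinset.filter (fun x => x.1 ≠ 0 ∧ x.1 ≠ 1728 ∧ x.2 ≠ 0 ∧ x.2 ≠ 1728 ∧
    (X : ℝ) ^ 3 < T ^ 12 * Nj x.1) with hF
  have hFm : ∀ x ∈ F, x ∈ PS D k X Y ∧ x.1 ≠ 0 ∧ x.1 ≠ 1728 ∧ x.2 ≠ 0 ∧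
      x.2 ≠ 1728 ∧ (X : ℝ) ^ 3 < T ^ 12 * Nj x.1 := by
    intro x hx
    obtain ⟨h1, h2⟩ := Finset.mem_filter.1 hx
    exact ⟨(Set.Finite.mem_toFinset hPF).1 h1, h2⟩
  have hsub : {j : ℚ | Ht j ≤ X ∧ ¬ FM D k ((X : ℝ) ^ κ) j} ⊆
      {j : ℚ | Ht j ≤ X ∧ T ^ 12 * Nj j ≤ (X : ℝ) ^ 3} ∪ ((F.image Prod.fst : Finset ℚ) : Set ℚ) := by
    rintro j ⟨hjX, hjF⟩
    by_cases hj : T ^ 12 * (Nj j : ℝ) ≤ (X : ℝ) ^ 3
    · exact Or.inl ⟨hjX, hj⟩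
    right
    push Not at hj
    unfold FM at hjF
    push Not at hjF
    obtain ⟨K, _, _, p, A, B, A₀, B₀, j₀, hD, h6, hkp, hP, hj₀, hiso⟩ := hjF
    have hN := hgen j hj
    have hjX' : (Ht j : ℝ) ≤ X := by exact_mod_cast hjX
    have hH1 : (1 : ℝ) ≤ Ht j := by exact_mod_cast Ht_pos j
    have hn : (Module.finrank ℚ K : ℝ) ≤ D := by exact_mod_cast hD
    have hlogH : Real.log (Ht j) ≤ Real.log X := Real.log_le_log (by linarith) hjX'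
    have hlogH0 := log_Ht j
    have hX2 : (0 : ℝ) ≤ (X : ℝ) ^ 2 := by positivity
    -- the invariants are different
    have hne : j ≠ j₀ := by
      rintro rfl
      have hg : Gd (Module.finrank ℚ K) j := by
        unfold Gd
        refine lt_of_le_of_lt ?_ hN
        refine mul_le_mul ?_ (pow_le_pow_left₀ (by linarith) hjX' 2) (by positivity) (by positivity)
        linarith
      obtain ⟨c, hc, h1, h2⟩ := iso1 hP h6 hg le_rfl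
      exact hiso c hc h1 h2
    have hsmall : Ht j₀ ≤ 1728 → False := by
      intro hs
      have h1 := ineq hP h6 hne
      have hsr : (Ht j₀ : ℝ) ≤ 1728 := by exact_mod_cast hs
      have hs1 : (1 : ℝ) ≤ Ht j₀ := by exact_mod_cast Ht_pos j₀
      have hl8 : Real.log (Ht j₀) ≤ 8 := by
        have h2 : Real.log (Ht j₀) ≤ Real.log 1728 := Real.log_le_log (by linarith) hsr
        have h3 : Real.log 1728 ≤ 8 := by
          rw [Real.log_le_iff_le_exp (by norm_num)]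
          have h4 : (2.7 : ℝ) ^ 8 ≤ Real.exp 1 ^ 8 :=
            pow_le_pow_left₀ (by norm_num) (by have := Real.exp_one_gt_d9; linarith) 8
          rw [← Real.exp_nat_mul] at h4
          norm_num at h4 ⊢
          linarith
        linarith
      have hl0 := log_Ht j₀
      have h2 : (Nj j : ℝ) ≤ 290 * ((D : ℝ) + 8) * X * 1728 := by
        refine h1.trans ?_
        gcongr
      have h3 : 290 * ((D : ℝ) + 8) * X * 1728 ≤ 3456000 * ((D : ℝ) + 8 + Real.log X) * (X : ℝ) ^ 2 := by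
        have h4 : (X : ℝ) ≤ (X : ℝ) ^ 2 := by nlinarith
        have h5 : 290 * ((D : ℝ) + 8) * X * 1728 = 501120 * ((D : ℝ) + 8) * X := by ring
        rw [h5]
        refine mul_le_mul (mul_le_mul (by norm_num) (by linarith) (by linarith) (by norm_num)) h4
          hX0'.le (by positivity)
      linarith
    have g3 : j₀ ≠ 0 := by
      rintro rfl
      exact hsmall (by rw [Ht_0]; norm_num)
    have g4 : j₀ ≠ 1728 := by
      rintro rfl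
      exact hsmall (by rw [Ht_1728])
    have g1 : j ≠ 0 := by
      rintro rfl
      have := hbig 0 hj
      rw [Nj_0] at this
      norm_num at this
    have g2 : j ≠ 1728 := by
      rintro rfl
      have := hbig 1728 hj
      rw [Nj_1728] at this
      norm_num at this
    rw [Finset.mem_coe, Finset.mem_image]
    refine ⟨(j, j₀), Finset.mem_filter.2 ⟨(Set.Finite.mem_toFinset hPF).2
      ⟨hne, hjX, Nat.le_floor hj₀, K, _, _, p, A, B, A₀, B₀, hD, h6, hkp, hP⟩,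
      g1, g2, g3, g4, hj⟩, rfl⟩
  -- the parameters
  set Z : ℕ := 4000000 * (D + 1) * Y with hZ
  have hY1 : 1 ≤ Y := hX.trans hXY
  have hZY : 4000000 * Y ≤ Z := by
    rw [hZ, mul_assoc, mul_comm (D + 1) Y, ← mul_assoc]
    exact Nat.le_mul_of_pos_right _ (Nat.succ_pos _)
  have hZD : 4000000 * (D + 1) ≤ Z := Nat.le_mul_of_pos_right _ hY1
  have hZ1 : 1 ≤ Z := by omega
  have hU := hun Z hZ1
  set E : ℝ := C₀ * (Z : ℝ) ^ η with hE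
  have hE1 := hU.one
  have hlogY : Nat.log 2 Y < Y := Nat.log_lt_self 2 (by omega)
  set Λ := 144 * D + 1 + Nat.log 2 Y with hΛ
  have hLZ : 6 * Λ ≤ Z := by
    have h2 : 2 * (6 * Λ) ≤ 4000000 * (D + 1) + 4000000 * Y := by omega
    omega
  have hΛE : (Λ : ℝ) ≤ G * E := by
    have h1 : (Nat.log 2 Y : ℝ) ≤ E - 1 := by
      have h2 : (Nat.log 2 Y : ℝ) ≤ Nat.log 2 Z := by
        exact_mod_cast Nat.log_mono_right (by omega)
      have := hU.lg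
      linarith
    have h3 : (Λ : ℝ) = 144 * D + 1 + Nat.log 2 Y := by
      rw [hΛ]
      push_cast
      ring
    rw [h3, hG]
    nlinarith
  have hΛX : 3458 * T ^ 12 * ((144 * D + 1 + Nat.log 2 Y : ℕ) : ℝ) < X := by
    have h1 := log_nat hX (by linarith : κ ≤ 22 / 7) hY1 hYr
    have h2 : 3458 * ((144 * D + 1 + Nat.log 2 Y : ℕ) : ℝ) < (X : ℝ) ^ (1 - 12 * δ) := by
      refine lt_of_lt_of_le ?_ hlog
      push_cast
      linarith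
    have h3 : (X : ℝ) = (X : ℝ) ^ (12 * δ) * (X : ℝ) ^ (1 - 12 * δ) := by
      rw [← Real.rpow_add hX0']
      conv_lhs => rw [← Real.rpow_one (X : ℝ)]
      congr 1
      ring
    have hp : 0 < (X : ℝ) ^ (12 * δ) := Real.rpow_pos_of_pos hX0' _
    calc 3458 * T ^ 12 * ((144 * D + 1 + Nat.log 2 Y : ℕ) : ℝ)
        = (X : ℝ) ^ (12 * δ) * (3458 * ((144 * D + 1 + Nat.log 2 Y : ℕ) : ℝ)) := by
          rw [hT12]; ring
      _ < (X : ℝ) ^ (12 * δ) * (X : ℝ) ^ (1 - 12 * δ) := mul_lt_mul_of_pos_left h2 hp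
      _ = X := h3.symm
  have hcount := hQC D k X Y Z E T hU hk hX hXY (by omega) (by omega) hLZ hT1 hΛX F hFm
  have hEle : E ≤ C₁ * (X : ℝ) ^ (κ * η) := by
    have h1 : (Z : ℝ) ≤ (4000000 * ((D : ℝ) + 1)) * (X : ℝ) ^ κ := by
      rw [hZ]
      push_cast
      exact mul_le_mul_of_nonneg_left hYr (by positivity)
    rw [hE, hC₁, mul_assoc]
    refine mul_le_mul_of_nonneg_left ?_ (by linarith)
    calc (Z : ℝ) ^ η ≤ ((4000000 * ((D : ℝ) + 1)) * (X : ℝ) ^ κ) ^ η :=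
          Real.rpow_le_rpow (Nat.cast_nonneg _) h1 hη0.le
      _ = (4000000 * ((D : ℝ) + 1)) ^ η * (X : ℝ) ^ (κ * η) := by
          rw [Real.mul_rpow (by positivity) (by positivity), ← Real.rpow_mul hX0'.le]
  have hYX : (X : ℝ) * ((Y : ℝ) / X) ^ (7 / 15 : ℝ) ≤ 1 * (X : ℝ) ^ θ := by
    have h1 : (Y : ℝ) / X ≤ (X : ℝ) ^ (κ - 1) := by
      rw [div_le_iff₀ hX0', Real.rpow_sub_one hX0'.ne']
      have : (X : ℝ) ^ κ / X * X = (X : ℝ) ^ κ := by field_simp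
      rw [this]
      exact hYr
    have h2 : ((Y : ℝ) / X) ^ (7 / 15 : ℝ) ≤ (X : ℝ) ^ ((κ - 1) * (7 / 15)) := by
      rw [Real.rpow_mul hX0'.le]
      exact Real.rpow_le_rpow (by positivity) h1 (by norm_num)
    rw [hθ, one_mul, Real.rpow_add hX0', Real.rpow_one]
    exact mul_le_mul_of_nonneg_left h2 hX0'.le
  have hXX : (X : ℝ) * (((1728 * X ^ 2 : ℕ) : ℝ) / X) ^ (1 / 2 + 1 / (k : ℝ)) ≤
      1728 * (X : ℝ) ^ (41 / 26 : ℝ) := by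
    have hk1 : 1 / (k : ℝ) ≤ 1 / 13 := one_div_le_one_div_of_le (by norm_num) hk13
    have hk2 : 0 ≤ 1 / (k : ℝ) := by positivity
    have h1 : ((1728 * X ^ 2 : ℕ) : ℝ) / X = 1728 * X := by
      push_cast
      field_simp
    rw [h1, Real.mul_rpow (by norm_num) hX0'.le]
    have h2 : (1728 : ℝ) ^ (1 / 2 + 1 / (k : ℝ)) ≤ 1728 := by
      conv_rhs => rw [← Real.rpow_one (1728 : ℝ)]
      exact Real.rpow_le_rpow_of_exponent_le (by norm_num) (by linarith)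
    have h3 : (X : ℝ) ^ (1 / 2 + 1 / (k : ℝ)) ≤ (X : ℝ) ^ (1 / 2 + 1 / 13 : ℝ) :=
      Real.rpow_le_rpow_of_exponent_le hX1 (by linarith)
    have h4 : (X : ℝ) ^ (41 / 26 : ℝ) = X * (X : ℝ) ^ (1 / 2 + 1 / 13 : ℝ) := by
      conv_rhs => rw [← Real.rpow_one_add' hX0'.le (by norm_num)]
      congr 1
      norm_num
    rw [h4]
    calc (X : ℝ) * ((1728 : ℝ) ^ (1 / 2 + 1 / (k : ℝ)) * (X : ℝ) ^ (1 / 2 + 1 / (k : ℝ)))
        ≤ (X : ℝ) * (1728 * (X : ℝ) ^ (1 / 2 + 1 / 13 : ℝ)) := by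
          refine mul_le_mul_of_nonneg_left ?_ hX0'.le
          exact mul_le_mul h2 h3 (Real.rpow_nonneg hX0'.le _) (by norm_num)
      _ = 1728 * (X * (X : ℝ) ^ (1 / 2 + 1 / 13 : ℝ)) := by ring
  have hFle : (F.card : ℝ) ≤ C₂ * (X : ℝ) ^ (2 - δ) := by
    refine hcount.trans ?_
    have h2 : (((Nat.log 2 Z + 1 : ℕ) : ℝ)) ≤ E := by
      push_cast
      exact hU.lg
    have hE0 : 0 < E := by linarith
    rw [hC₂, add_mul]
    refine add_le_add ?_ ?_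
    · refine calc1 hX1 hE0 (by linarith) (by linarith) (Nat.cast_nonneg _) (Nat.cast_nonneg _)
        (by positivity) hΛE h2 hYX (by norm_num) hEle ?_
      rw [hκη]
      linarith
    · refine calc2 hX1 hE0 (by linarith) (Nat.cast_nonneg _) (Nat.cast_nonneg _)
        (by positivity) hΛE h2 hXX (by norm_num) hEle ?_
      rw [hκη]
      linarith
  have hTne : 14000 * (X : ℝ) ^ 2 / T = 14000 * (X : ℝ) ^ (2 - δ) := by
    rw [hXsplit, hT]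
    have : (X : ℝ) ^ δ ≠ 0 := (Real.rpow_pos_of_pos hX0' _).ne'
    field_simp
  have hfin : ({j : ℚ | Ht j ≤ X ∧ T ^ 12 * Nj j ≤ (X : ℝ) ^ 3} ∪
      ((F.image Prod.fst : Finset ℚ) : Set ℚ)).Finite :=
    ((Ht_finite X).subset fun j hj => hj.1).union (Finset.finite_toSet _)
  have h1 := Set.ncard_le_ncard hsub hfin
  have h2 := Set.ncard_union_le {j : ℚ | Ht j ≤ X ∧ T ^ 12 * Nj j ≤ (X : ℝ) ^ 3}
    ((F.image Prod.fst : Finset ℚ) : Set ℚ)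
  rw [Set.ncard_coe_finset] at h2
  have h3 : (F.image Prod.fst).card ≤ F.card := Finset.card_image_le
  have h4 := card_real hX hT0
  have h5 : ({j : ℚ | Ht j ≤ X ∧ ¬ FM D k ((X : ℝ) ^ κ) j}.ncard : ℝ) ≤
      ({j : ℚ | Ht j ≤ X ∧ T ^ 12 * Nj j ≤ (X : ℝ) ^ 3}.ncard : ℝ) + F.card := by
    exact_mod_cast (h1.trans h2).trans (Nat.add_le_add_left h3 _)
  have h6 : 0 ≤ 3 * ((X₀ : ℝ) + 1) ^ δ * (X : ℝ) ^ (2 - δ) := by positivity
  calc ({j : ℚ | Ht j ≤ X ∧ ¬ FM D k ((X : ℝ) ^ κ) j}.ncard : ℝ)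
      ≤ 14000 * (X : ℝ) ^ (2 - δ) + C₂ * (X : ℝ) ^ (2 - δ) := by
        rw [← hTne]
        linarith
    _ ≤ (14000 + C₂ + 3 * ((X₀ : ℝ) + 1) ^ δ) * (X : ℝ) ^ (2 - δ) := by
        linarith

end Pool.Agent.H85.QQ
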